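import Mathlib

set_option autoImplicit false

namespace Pool.Agent.H.MP_f4a1d1_an

open Set Filter Topology

def Dsc (A : Type) : Type := A

instance (A : Type) : TopologicalSpace (Dsc A) := ⊥
instance (A : Type) : DiscreteTopology (Dsc A) := ⟨rfl⟩

abbrev C (A : Type) : Type := ZeroAtInftyContinuousMap (Dsc A) ℝ

variable {A : Type}

def ev (x : C A) (a : A) : ℝ := x (show Dsc A from a)

lemma ev_sub (x y : C A) (a : A) : ev (x - y) a = ev x a - ev y a := rfl

lemma ev_zero (a : A) : ev (0 : C A) a = 0 := rfl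

lemma ev_ext {x y : C A} (h : ∀ a, ev x a = ev y a) : x = y :=
  ZeroAtInftyContinuousMap.ext h

lemma ev_le (x : C A) (a : A) : |ev x a| ≤ ‖x‖ := by
  rw [← ZeroAtInftyContinuousMap.norm_toBCF_eq_norm]
  exact x.toBCF.norm_coe_le_norm (show Dsc A from a)

lemma norm_le {x : C A} {r : ℝ} (hr : 0 ≤ r) (h : ∀ a, |ev x a| ≤ r) : ‖x‖ ≤ r := by
  rw [← ZeroAtInftyContinuousMap.norm_toBCF_eq_norm]
  exact (BoundedContinuousFunction.norm_le hr).2 h

lemma ev_sub_le (x y : C A) (a : A) : |ev x a - ev y a| ≤ ‖x - y‖ := ev_le (x - y) a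

lemma fin (x : C A) {ε : ℝ} (hε : 0 < ε) : {a | ε ≤ |ev x a|}.Finite := by
  have h := x.zero_at_infty'
  rw [cocompact_eq_cofinite, Metric.tendsto_nhds] at h
  have := h ε hε
  rw [eventually_cofinite] at this
  refine Set.Finite.subset (s := (show Set A from {a : Dsc A | ¬ dist (x.toFun a) 0 < ε})) this ?_
  intro a ha
  simp only [mem_ofPred_eq, Real.dist_eq, sub_zero, not_lt] at ha ⊢
  exact ha

def mk (f : A → ℝ) (h : ∀ ε : ℝ, 0 < ε → {a | ε ≤ |f a|}.Finite) : C A :=
  ⟨⟨(show Dsc A → ℝ from f), continuous_of_discreteTopology⟩, by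
    rw [cocompact_eq_cofinite, Metric.tendsto_nhds]
    intro ε hε
    rw [eventually_cofinite]
    refine Set.Finite.subset (s := (show Set (Dsc A) from {a : A | ε ≤ |f a|})) (h ε hε) ?_
    intro a ha
    simp only [mem_ofPred_eq, Real.dist_eq, sub_zero, not_lt] at ha ⊢
    exact ha⟩

lemma ev_mk (f : A → ℝ) (h : ∀ ε : ℝ, 0 < ε → {a | ε ≤ |f a|}.Finite) (a : A) :
    ev (mk f h) a = f a := rfl

open Classical in
noncomputable def sgl (a : A) (t : ℝ) : C A :=
  mk (fun b => if b = a then t else 0) fun ε hε =>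
    (Set.finite_singleton a).subset fun b hb => by
      by_contra h
      simp only [mem_ofPred_eq, if_neg (show ¬ b = a from h), abs_zero] at hb
      linarith

lemma sgl_self (a : A) (t : ℝ) : ev (sgl a t) a = t := by simp [sgl, ev_mk]

lemma sgl_ne {a b : A} (h : b ≠ a) (t : ℝ) : ev (sgl a t) b = 0 := by simp [sgl, ev_mk, h]

lemma supp_countable (x : C A) : {a | ev x a ≠ 0}.Countable := by
  refine (Set.countable_iUnion fun n : ℕ =>
    (fin x (show (0 : ℝ) < 1 / ((n : ℝ) + 1) by positivity)).countable).mono fun a ha => ?_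
  obtain ⟨n, hn⟩ := exists_nat_one_div_lt (abs_pos.2 ha)
  exact mem_iUnion.2 ⟨n, hn.le⟩

noncomputable def clip (v r : ℝ) : ℝ := max (-r) (min v r)

lemma clip_lip {v r v' r' d : ℝ} (h1 : |v - v'| ≤ d) (h2 : |r - r'| ≤ d) :
    |clip v r - clip v' r'| ≤ d := by
  rw [abs_le] at *
  unfold clip
  constructor <;> simp only [max_def, min_def] <;> split_ifs <;> linarith [h1.1, h1.2, h2.1, h2.2]

lemma clip_le {v r : ℝ} (hr : 0 ≤ r) : |clip v r| ≤ |v| ∧ |clip v r| ≤ r := by
  unfold clip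
  have h1 := le_abs_self v
  have h2 := neg_abs_le v
  have h3 := abs_nonneg v
  constructor <;> rw [abs_le] <;> constructor <;> simp only [max_def, min_def] <;>
    split_ifs <;> linarith

lemma clip_eq {v r : ℝ} (h : |v| ≤ r) : clip v r = v := by
  rw [abs_le] at h
  unfold clip
  rw [min_eq_left h.2, max_eq_right h.1]

lemma clip_zero (v : ℝ) : clip v 0 = 0 := by
  have := (clip_le (v := v) le_rfl).2
  exact abs_nonpos_iff.1 this

lemma clip_inj {v v' r : ℝ} (h : |v| < r) (e : clip v r = clip v' r) : v = v' := by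
  rw [clip_eq h.le] at e
  rw [abs_lt] at h
  unfold clip at e
  simp only [max_def, min_def] at e
  split_ifs at e <;> linarith [h.1, h.2]

noncomputable def cc (k : ℕ) : ℝ := (1 / 2) ^ k

lemma cc_pos (k : ℕ) : 0 < cc k := by unfold cc; positivity

lemma cc_le (k : ℕ) : cc k ≤ 1 := pow_le_one₀ (by norm_num) (by norm_num)

lemma cc_small {ε : ℝ} (hε : 0 < ε) : ∃ k, cc k < ε :=
  exists_pow_lt_of_lt_one hε (by norm_num)

noncomputable def ww (j : ℤ) (k : ℕ) (t : ℝ) : ℝ :=
  clip (t - j * cc k) (cc k) - clip (0 - j * cc k) (cc k)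

lemma ww_lip (j : ℤ) (k : ℕ) (t t' : ℝ) : |ww j k t - ww j k t'| ≤ |t - t'| := by
  unfold ww
  rw [sub_sub_sub_cancel_right]
  refine clip_lip (le_of_eq ?_) (by simp)
  congr 1; ring

lemma ww_zero (j : ℤ) (k : ℕ) : ww j k 0 = 0 := sub_self _

lemma ww_le (j : ℤ) (k : ℕ) (t : ℝ) : |ww j k t| ≤ |t| := by
  simpa [ww_zero] using ww_lip j k t 0

lemma ww_le' (j : ℤ) (k : ℕ) (t : ℝ) : |ww j k t| ≤ 2 * cc k := by
  unfold ww
  have h1 := (clip_le (v := t - j * cc k) (cc_pos k).le).2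
  have h2 := (clip_le (v := 0 - j * cc k) (cc_pos k).le).2
  have := abs_sub (clip (t - j * cc k) (cc k)) (clip (0 - j * cc k) (cc k))
  linarith

lemma ww_far {j : ℤ} {k : ℕ} {t : ℝ} (h : |t| + cc k ≤ |(j : ℝ)| * cc k) : ww j k t = 0 := by
  have hc := cc_pos k
  have h1 := le_abs_self t
  have h2 := neg_abs_le t
  have h3 := abs_nonneg t
  unfold ww clip
  rcases abs_cases (j : ℝ) with ⟨e, -⟩ | ⟨e, -⟩
  · rw [e] at h
    rw [max_eq_left (min_le_of_left_le (by linarith)),
      max_eq_left (min_le_of_left_le (by linarith)), sub_self]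
  · rw [e] at h
    rw [min_eq_right (by linarith), min_eq_right (by linarith), sub_self]

lemma near (k : ℕ) (t : ℝ) : ∃ j : ℤ, |t - j * cc k| ≤ cc k / 2 := by
  have hc := cc_pos k
  refine ⟨round (t / cc k), ?_⟩
  have h := abs_sub_round (t / cc k)
  have e : t - (round (t / cc k) : ℤ) * cc k = (t / cc k - round (t / cc k)) * cc k := by
    field_simp
  rw [e, abs_mul, abs_of_pos hc]
  nlinarith

lemma ww_inj {k : ℕ} {t t' : ℝ} (h : ∀ j, ww j k t = ww j k t') : t = t' := by
  obtain ⟨j, hj⟩ := near k t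
  have h1 := h j
  unfold ww at h1
  have := clip_inj (lt_of_le_of_lt hj (by linarith [cc_pos k])) (sub_left_injective h1)
  linarith

end Pool.Agent.H.MP_f4a1d1_an
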