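import Mathlib
import Pool.Agent.H.MP_f4a1d1_an.Base

set_option autoImplicit false

namespace Pool.Agent.H.MP_f4a1d1_an

open Set

abbrev D (G : Type) : Type := G × Option (G × ℤ × ℕ)

variable {G : Type} (τ : G → C (D G)) (act : G → Prop)

noncomputable def RR (a : G) : ℝ := 2 + ‖τ a‖

noncomputable def pp (a : G) : C G := sgl a (6 * RR τ a)

open Classical in
noncomputable def qq (a : G) : C G := if act a then pp τ a else 0

noncomputable def rho (a : G) (x : C G) : ℝ := min (max (|ev x a| - 1) 0) ‖x - qq τ act a‖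

noncomputable def u0 (x : C G) : D G → ℝ
  | (a, none) => clip (ev x a) (max 0 (4 - |ev x a|))
  | (a, some (b, j, k)) => clip (ww j k (ev (x - qq τ act a) b)) (rho τ act a x)

lemma RR_ge (a : G) : 2 ≤ RR τ a := by unfold RR; linarith [norm_nonneg (τ a)]

lemma rho_nonneg (a : G) (x : C G) : 0 ≤ rho τ act a x :=
  le_min (le_max_right _ _) (norm_nonneg _)

lemma rho_lip (a : G) (x x' : C G) : |rho τ act a x - rho τ act a x'| ≤ ‖x - x'‖ := by
  unfold rho
  refine (abs_min_sub_min_le_max _ _ _ _).trans (max_le ?_ ?_)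
  · refine (abs_max_sub_max_le_abs _ _ _).trans ?_
    rw [sub_sub_sub_cancel_right]
    exact (abs_abs_sub_abs_le_abs_sub _ _).trans (ev_sub_le x x' a)
  · refine (abs_norm_sub_norm_le _ _).trans (le_of_eq ?_)
    rw [sub_sub_sub_cancel_right]

lemma u0_lip (x x' : C G) (δ : D G) : |u0 τ act x δ - u0 τ act x' δ| ≤ ‖x - x'‖ := by
  rcases δ with ⟨a, _ | ⟨b, j, k⟩⟩
  · refine clip_lip (ev_sub_le x x' a) ?_
    rw [max_comm 0, max_comm 0]
    refine (abs_max_sub_max_le_abs _ _ _).trans ?_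
    rw [sub_sub_sub_cancel_left]
    refine (abs_abs_sub_abs_le_abs_sub _ _).trans ?_
    rw [abs_sub_comm]
    exact ev_sub_le x x' a
  · refine clip_lip ((ww_lip _ _ _ _).trans ?_) (rho_lip τ act a x x')
    rw [ev_sub, ev_sub, sub_sub_sub_cancel_right]
    exact ev_sub_le x x' b

lemma u0_le (x : C G) (δ : D G) : |u0 τ act x δ| ≤ 2 := by
  rcases δ with ⟨a, _ | ⟨b, j, k⟩⟩
  · have := clip_le (v := ev x a) (le_max_left 0 (4 - |ev x a|))
    simp only [u0]
    rcases le_total 0 (4 - |ev x a|) with h | h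
    · rw [max_eq_right h] at this ⊢; linarith [this.1, this.2]
    · rw [max_eq_left h] at this ⊢; linarith [this.2]
  · refine (clip_le (rho_nonneg τ act a x)).1.trans ((ww_le' _ _ _).trans ?_)
    linarith [cc_le k]

lemma u0_fin (x : C G) {ε : ℝ} (hε : 0 < ε) : {δ | ε ≤ |u0 τ act x δ|}.Finite := by
  obtain ⟨K, hK⟩ := cc_small (show 0 < ε / 2 by linarith)
  have h1 := (fin x hε).image (fun a => ((a, none) : D G))
  have h2 := (fin x one_pos).biUnion (t := fun a => (fun o : G × ℤ × ℕ => ((a, some o) : D G)) ''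
    ({b | ε ≤ |ev (x - qq τ act a) b|} ×ˢ
      (Icc (-⌈‖x - qq τ act a‖ / (ε / 2) + 1⌉) ⌈‖x - qq τ act a‖ / (ε / 2) + 1⌉ ×ˢ Iic K)))
    (fun a _ => ((fin _ hε).prod ((finite_Icc _ _).prod (finite_Iic _))).image _)
  refine (h1.union h2).subset ?_
  rintro ⟨a, _ | ⟨b, j, k⟩⟩ h
  · exact Or.inl ⟨a, le_trans h (clip_le (le_max_left _ _)).1, rfl⟩
  · right
    have e := clip_le (v := ww j k (ev (x - qq τ act a) b)) (rho_nonneg τ act a x)
    have e1 : ε ≤ |ww j k (ev (x - qq τ act a) b)| := le_trans h e.1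
    have e2 : ε ≤ max (|ev x a| - 1) 0 := (le_trans h e.2).trans (min_le_left _ _)
    have e3 : ε / 2 ≤ cc k := by linarith [ww_le' j k (ev (x - qq τ act a) b)]
    refine mem_biUnion (x := a) ?_ ⟨(b, j, k), ⟨e1.trans (ww_le _ _ _), ?_, ?_⟩, rfl⟩
    · rcases le_max_iff.1 e2 with h | h
      · show 1 ≤ |ev x a|; linarith
      · linarith
    · have e4 : |(j : ℝ)| * cc k < |ev (x - qq τ act a) b| + cc k := by
        by_contra hc
        rw [ww_far (not_lt.1 hc), abs_zero] at e1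
        linarith
      have e5 : |(j : ℝ)| ≤ ‖x - qq τ act a‖ / (ε / 2) + 1 := by
        have f1 := ev_le (x - qq τ act a) b
        have f2 : ‖x - qq τ act a‖ ≤ ‖x - qq τ act a‖ / (ε / 2) * cc k := by
          rw [div_mul_eq_mul_div, le_div_iff₀ (by linarith)]
          exact mul_le_mul_of_nonneg_left e3 (norm_nonneg _)
        refine le_of_mul_le_mul_right ?_ (cc_pos k)
        linarith
      have e6 : |j| ≤ ⌈‖x - qq τ act a‖ / (ε / 2) + 1⌉ := by
        have := e5.trans (Int.le_ceil _)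
        exact_mod_cast this
      exact abs_le.1 e6
    · by_contra hc
      have : cc k ≤ cc K := pow_le_pow_of_le_one (by norm_num) (by norm_num) (le_of_lt (not_le.1 hc))
      linarith

lemma pp_far {a b : G} (h : a ≠ b) (x x' : C G) :
    6 * RR τ a ≤ ‖x - pp τ a‖ + ‖x - x'‖ + ‖x' - pp τ b‖ := by
  have h1 := ev_sub_le x (pp τ a) a
  have h2 := ev_sub_le x x' a
  have h3 := ev_sub_le x' (pp τ b) a
  rw [pp, sgl_self] at h1
  rw [pp, sgl_ne h] at h3
  rw [abs_le] at h1 h2 h3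
  unfold pp
  linarith [h1.1, h2.2, h3.2]

lemma ball_uniq {a b : G} {x : C G} (ha : ‖x - pp τ a‖ < RR τ a) (hb : ‖x - pp τ b‖ < RR τ b) :
    a = b := by
  by_contra h
  have h1 := pp_far τ h x x
  have h2 := pp_far τ (Ne.symm h) x x
  rw [sub_self, norm_zero] at h1 h2
  linarith [RR_ge τ a, RR_ge τ b]

noncomputable def cl (a : G) (x : C G) (δ : D G) : ℝ :=
  ev (τ a) δ + clip (u0 τ act x δ - ev (τ a) δ) ‖x - pp τ a‖

lemma cl_out {a : G} {x : C G} (h : ¬ ‖x - pp τ a‖ < RR τ a) (δ : D G) :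
    cl τ act a x δ = u0 τ act x δ := by
  unfold cl
  rw [clip_eq, add_sub_cancel]
  have h1 := abs_sub (u0 τ act x δ) (ev (τ a) δ)
  have h2 := u0_le τ act x δ
  have h3 := ev_le (τ a) δ
  unfold RR at h
  linarith [not_lt.1 h]

lemma cl_lip (a : G) (x x' : C G) (δ : D G) : |cl τ act a x δ - cl τ act a x' δ| ≤ ‖x - x'‖ := by
  unfold cl
  rw [add_sub_add_left_eq_sub]
  refine clip_lip ?_ ?_
  · rw [sub_sub_sub_cancel_right]; exact u0_lip τ act x x' δ
  · refine (abs_norm_sub_norm_le _ _).trans (le_of_eq ?_)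
    rw [sub_sub_sub_cancel_right]

lemma cl_le (a : G) (x : C G) (δ : D G) :
    |cl τ act a x δ| ≤ |u0 τ act x δ| + 2 * |ev (τ a) δ| := by
  unfold cl
  have h1 := abs_sub (u0 τ act x δ) (ev (τ a) δ)
  have h2 := (clip_le (v := u0 τ act x δ - ev (τ a) δ) (norm_nonneg (x - pp τ a))).1
  have h3 := abs_add_le (ev (τ a) δ) (clip (u0 τ act x δ - ev (τ a) δ) ‖x - pp τ a‖)
  linarith

variable [LinearOrder G]

open Classical in
noncomputable def Uf (x : C G) (δ : D G) : ℝ :=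
  if h : ∃ a, act a ∧ δ.1 < a ∧ ‖x - pp τ a‖ < RR τ a then cl τ act h.choose x δ
  else u0 τ act x δ

lemma Uf_in {a : G} {x : C G} {δ : D G} (h1 : act a) (h2 : δ.1 < a)
    (h3 : ‖x - pp τ a‖ < RR τ a) : Uf τ act x δ = cl τ act a x δ := by
  have h : ∃ a, act a ∧ δ.1 < a ∧ ‖x - pp τ a‖ < RR τ a := ⟨a, h1, h2, h3⟩
  rw [Uf, dif_pos h, ball_uniq τ h.choose_spec.2.2 h3]

lemma Uf_out {x : C G} {δ : D G} (h : ¬ ∃ a, act a ∧ δ.1 < a ∧ ‖x - pp τ a‖ < RR τ a) :
    Uf τ act x δ = u0 τ act x δ := by rw [Uf, dif_neg h]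

lemma Uf_lip (x x' : C G) (δ : D G) : |Uf τ act x δ - Uf τ act x' δ| ≤ ‖x - x'‖ := by
  by_cases h : ∃ a, act a ∧ δ.1 < a ∧ ‖x - pp τ a‖ < RR τ a <;>
    by_cases h' : ∃ a, act a ∧ δ.1 < a ∧ ‖x' - pp τ a‖ < RR τ a
  · obtain ⟨a, a1, a2, a3⟩ := h
    obtain ⟨b, b1, b2, b3⟩ := h'
    rw [Uf_in τ act a1 a2 a3, Uf_in τ act b1 b2 b3]
    by_cases hab : a = b
    · subst hab; exact cl_lip τ act a x x' δ
    · have e1 := pp_far τ hab x x'
      have e2 := pp_far τ (Ne.symm hab) x' x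
      rw [norm_sub_rev x' x] at e2
      have e3 := cl_le τ act a x δ
      have e4 := cl_le τ act b x' δ
      have e5 := abs_sub (cl τ act a x δ) (cl τ act b x' δ)
      have e6 := u0_le τ act x δ
      have e7 := u0_le τ act x' δ
      have e8 := ev_le (τ a) δ
      have e9 := ev_le (τ b) δ
      unfold RR at *
      linarith
  · obtain ⟨a, a1, a2, a3⟩ := h
    rw [Uf_in τ act a1 a2 a3, Uf_out τ act h',
      ← cl_out τ act (a := a) (x := x') fun hc => h' ⟨a, a1, a2, hc⟩]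
    exact cl_lip τ act a x x' δ
  · obtain ⟨a, a1, a2, a3⟩ := h'
    rw [Uf_in τ act a1 a2 a3, Uf_out τ act h,
      ← cl_out τ act (a := a) (x := x) fun hc => h ⟨a, a1, a2, hc⟩]
    exact cl_lip τ act a x x' δ
  · rw [Uf_out τ act h, Uf_out τ act h']; exact u0_lip τ act x x' δ

lemma Uf_fin (x : C G) (ε : ℝ) (hε : 0 < ε) : {δ | ε ≤ |Uf τ act x δ|}.Finite := by
  by_cases h : ∃ a, ‖x - pp τ a‖ < RR τ a
  · obtain ⟨a, ha⟩ := h
    refine ((u0_fin τ act x (show 0 < ε / 3 by linarith)).union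
      (fin (τ a) (show 0 < ε / 3 by linarith))).subset fun δ hδ => ?_
    by_contra hc
    simp only [mem_union, mem_ofPred_eq, not_or, not_le] at hc hδ
    by_cases h' : ∃ a, act a ∧ δ.1 < a ∧ ‖x - pp τ a‖ < RR τ a
    · obtain ⟨b, b1, b2, b3⟩ := h'
      rw [Uf_in τ act b1 b2 b3, ball_uniq τ b3 ha] at hδ
      linarith [cl_le τ act a x δ, hc.1, hc.2]
    · rw [Uf_out τ act h'] at hδ
      linarith [hc.1]
  · refine (u0_fin τ act x hε).subset fun δ hδ => ?_
    rw [mem_ofPred_eq, Uf_out τ act fun ⟨a, _, _, h3⟩ => h ⟨a, h3⟩] at hδ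
    exact hδ

noncomputable def UU (x : C G) : C (D G) := mk (Uf τ act x) (Uf_fin τ act x)

lemma UU_lip (x x' : C G) : ‖UU τ act x - UU τ act x'‖ ≤ ‖x - x'‖ :=
  norm_le (norm_nonneg _) fun δ => Uf_lip τ act x x' δ

omit [LinearOrder G] in
lemma typeB {a : G} {x0 : C G} (h : 0 < rho τ act a x0) : ∃ r : ℝ, 0 < r ∧ r ≤ 1 ∧ ∀ b, ∃ o s,
    ∀ x, ‖x - x0‖ < r → u0 τ act x (a, o) = ev x b - s := by
  obtain ⟨k, hk⟩ := cc_small (show 0 < rho τ act a x0 / 4 by linarith)
  have hc := cc_pos k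
  refine ⟨cc k / 2, by linarith, by linarith [cc_le k], fun b => ?_⟩
  obtain ⟨j, hj⟩ := near k (ev (x0 - qq τ act a) b)
  refine ⟨some (b, j, k), ev (qq τ act a) b + j * cc k + clip (0 - j * cc k) (cc k),
    fun x hx => ?_⟩
  have e1 := (abs_le.1 (rho_lip τ act a x x0)).1
  simp only [u0]
  rw [clip_eq ((ww_le' _ _ _).trans (by linarith)), ww, clip_eq, ev_sub]
  · ring
  · have e2 := ev_sub_le x x0 b
    rw [ev_sub] at hj ⊢
    rw [abs_le] at *
    constructor <;> linarith [e2.1, e2.2, hj.1, hj.2]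

omit [LinearOrder G] in
lemma typeA {a : G} (h : act a) (b : G) (x : C G) (hx : ‖x - pp τ a‖ < 1) :
    u0 τ act x (a, some (b, 0, 0)) = ev x b - ev (pp τ a) b := by
  have hq : qq τ act a = pp τ a := if_pos h
  have e1 := ev_le (x - pp τ a) b
  have e2 := ev_sub_le x (pp τ a) a
  rw [pp, sgl_self] at e2
  have e3 : ww 0 0 (ev (x - pp τ a) b) = ev (x - pp τ a) b := by
    simp only [ww, cc, Int.cast_zero, zero_mul, sub_zero, pow_zero]
    rw [clip_eq (by linarith), clip_eq (by simp), sub_zero]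
  simp only [u0, rho, hq, e3]
  rw [clip_eq, ev_sub]
  refine le_min (le_max_of_le_left ?_) e1
  have e4 := le_abs_self (ev x a)
  have e5 := (abs_le.1 e2).1
  unfold pp at hx e1 ⊢
  linarith [RR_ge τ a]

omit [LinearOrder G] in
lemma rho_pos {a : G} {x : C G} (h1 : 1 < |ev x a|) (h2 : x ≠ qq τ act a) : 0 < rho τ act a x :=
  lt_min (lt_max_of_lt_left (by linarith)) (norm_pos_iff.2 (sub_ne_zero.2 h2))

lemma local_iso (x0 : C G) : ∃ r : ℝ, 0 < r ∧ ∀ b, ∃ δ s,
    ∀ x, ‖x - x0‖ < r → Uf τ act x δ = ev x b - s := by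
  by_cases h : ∃ a, act a ∧ ‖x0 - pp τ a‖ ≤ RR τ a + 1
  · obtain ⟨a, a1, a2⟩ := h
    have hout : ∀ x, ‖x - x0‖ < 1 → ∀ o, Uf τ act x (a, o) = u0 τ act x (a, o) := by
      intro x hx o
      refine Uf_out τ act ?_
      rintro ⟨c, -, c2, c3⟩
      have e1 := pp_far τ c2.ne' x x0
      have e2 := pp_far τ c2.ne x0 x
      rw [norm_sub_rev x0 x] at e2
      linarith [RR_ge τ a, RR_ge τ c]
    by_cases hp : x0 = pp τ a
    · refine ⟨1, one_pos, fun b => ⟨(a, some (b, 0, 0)), ev (pp τ a) b, fun x hx => ?_⟩⟩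
      rw [hout x hx, typeA τ act a1 b x (hp ▸ hx)]
    · have e1 := ev_sub_le x0 (pp τ a) a
      rw [pp, sgl_self] at e1
      have e4 : 1 < |ev x0 a| := by
        have e2 := le_abs_self (ev x0 a)
        have e3 := (abs_le.1 e1).1
        unfold pp at a2
        linarith [RR_ge τ a]
      obtain ⟨r, r0, r1, hr⟩ := typeB τ act (a := a) (x0 := x0)
        (rho_pos τ act e4 (by rwa [qq, if_pos a1]))
      refine ⟨r, r0, fun b => ?_⟩
      obtain ⟨o, s, ho⟩ := hr b
      exact ⟨(a, o), s, fun x hx => by rw [hout x (by linarith), ho x hx]⟩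
  · have hout : ∀ x, ‖x - x0‖ < 1 → ∀ δ, Uf τ act x δ = u0 τ act x δ := by
      intro x hx δ
      refine Uf_out τ act ?_
      rintro ⟨c, c1, -, c3⟩
      refine h ⟨c, c1, ?_⟩
      have := norm_sub_le_norm_sub_add_norm_sub x0 x (pp τ c)
      rw [norm_sub_rev x0 x] at this
      linarith
    by_cases h' : ∃ a, 1 < |ev x0 a|
    · obtain ⟨a, ha⟩ := h'
      have e4 : x0 ≠ qq τ act a := by
        intro hq
        by_cases a1 : act a
        · rw [qq, if_pos a1] at hq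
          refine h ⟨a, a1, ?_⟩
          rw [hq, sub_self, norm_zero]
          linarith [RR_ge τ a]
        · rw [qq, if_neg a1] at hq
          rw [hq, ev_zero, abs_zero] at ha
          linarith
      obtain ⟨r, r0, r1, hr⟩ := typeB τ act (a := a) (x0 := x0) (rho_pos τ act ha e4)
      refine ⟨r, r0, fun b => ?_⟩
      obtain ⟨o, s, ho⟩ := hr b
      exact ⟨(a, o), s, fun x hx => by rw [hout x (by linarith), ho x hx]⟩
    · refine ⟨1, one_pos, fun b => ⟨(b, none), 0, fun x hx => ?_⟩⟩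
      rw [hout x hx, sub_zero]
      refine clip_eq (le_max_of_le_right ?_)
      have e1 := ev_sub_le x x0 b
      have e2 : |ev x0 b| ≤ 1 := not_lt.1 fun hc => h' ⟨b, hc⟩
      have e3 := abs_sub_abs_le_abs_sub (ev x b) (ev x0 b)
      linarith

lemma UU_loc (x0 : C G) : ∃ r : ℝ, 0 < r ∧ ∀ x ∈ Metric.ball x0 r, ∀ y ∈ Metric.ball x0 r,
    dist (UU τ act x) (UU τ act y) = dist x y := by
  obtain ⟨r, r0, hr⟩ := local_iso τ act x0
  refine ⟨r, r0, fun x hx y hy => ?_⟩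
  rw [Metric.mem_ball, dist_eq_norm] at hx hy
  rw [dist_eq_norm, dist_eq_norm]
  refine le_antisymm (UU_lip τ act x y) (norm_le (norm_nonneg _) fun b => ?_)
  obtain ⟨δ, s, h⟩ := hr b
  refine le_trans (le_of_eq ?_) (ev_sub_le (UU τ act x) (UU τ act y) δ)
  simp only [UU, ev_mk]
  rw [h x hx, h y hy, ev_sub, sub_sub_sub_cancel_right]

omit [LinearOrder G] in
lemma row_inj {a : G} {x x' : C G} (h : 0 < rho τ act a x)
    (e : ∀ o, u0 τ act x (a, o) = u0 τ act x' (a, o)) : x = x' := by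
  rcases (rho_nonneg τ act a x').eq_or_lt with h' | h'
  · exfalso
    obtain ⟨k, hk⟩ := cc_small (show 0 < rho τ act a x / 2 by linarith)
    have : x - qq τ act a = 0 := by
      refine ev_ext fun b => ww_inj (k := k) fun j => ?_
      have := e (some (b, j, k))
      simp only [u0] at this
      rw [← h', clip_zero, clip_eq ((ww_le' _ _ _).trans (by linarith))] at this
      rw [this, ev_zero, ww_zero]
    have h2 : rho τ act a x ≤ ‖x - qq τ act a‖ := min_le_right _ _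
    rw [this, norm_zero] at h2
    linarith
  · obtain ⟨k, hk⟩ := cc_small (show 0 < min (rho τ act a x) (rho τ act a x') / 2 by positivity)
    have m1 := min_le_left (rho τ act a x) (rho τ act a x')
    have m2 := min_le_right (rho τ act a x) (rho τ act a x')
    have : x - qq τ act a = x' - qq τ act a := by
      refine ev_ext fun b => ww_inj (k := k) fun j => ?_
      have := e (some (b, j, k))
      simp only [u0] at this
      rwa [clip_eq ((ww_le' _ _ _).trans (by linarith)),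
        clip_eq ((ww_le' _ _ _).trans (by linarith))] at this
    exact sub_left_injective this

omit [LinearOrder G] in
lemma rho_cases (a : G) (x : C G) :
    0 < rho τ act a x ∨ |ev x a| ≤ 1 ∨ (act a ∧ x = pp τ a) := by
  by_cases h1 : |ev x a| ≤ 1
  · exact Or.inr (Or.inl h1)
  by_cases h2 : x = qq τ act a
  · by_cases a1 : act a
    · rw [qq, if_pos a1] at h2; exact Or.inr (Or.inr ⟨a1, h2⟩)
    · rw [qq, if_neg a1] at h2
      rw [h2, ev_zero, abs_zero] at h1
      exact absurd zero_le_one h1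
  · exact Or.inl (rho_pos τ act (not_le.1 h1) h2)

omit [LinearOrder G] in
lemma u0_small {a : G} {x : C G} (h : |ev x a| ≤ 1) : u0 τ act x (a, none) = ev x a :=
  clip_eq (le_max_of_le_right (by linarith))

omit [LinearOrder G] in
lemma u0_zero {a : G} {x : C G} (h : ev x a = 0) (o : Option (G × ℤ × ℕ)) :
    u0 τ act x (a, o) = 0 := by
  rcases o with _ | ⟨b, j, k⟩
  · rw [u0_small τ act (by simp [h]), h]
  · have : rho τ act a x = 0 := by
      rw [rho, h, abs_zero, max_eq_right (by norm_num), min_eq_left (norm_nonneg _)]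
    simp only [u0, this, clip_zero]

lemma Uf_pp {a : G} (h : act a) (hs : ∀ δ : D G, a ≤ δ.1 → ev (τ a) δ = 0) (δ : D G) :
    Uf τ act (pp τ a) δ = ev (τ a) δ := by
  have hb : ‖pp τ a - pp τ a‖ < RR τ a := by rw [sub_self, norm_zero]; linarith [RR_ge τ a]
  rcases lt_or_ge δ.1 a with h1 | h1
  · rw [Uf_in τ act h h1 hb, cl, sub_self, norm_zero, clip_zero, add_zero]
  · rw [hs δ h1, Uf_out τ act fun ⟨c, _, c2, c3⟩ => absurd (ball_uniq τ c3 hb ▸ c2) (not_lt.2 h1)]
    obtain ⟨b, o⟩ := δ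
    by_cases hba : b = a
    · subst hba
      rcases o with _ | ⟨c, j, k⟩
      · simp only [u0, pp, sgl_self]
        rw [max_eq_left, clip_zero]
        linarith [RR_ge τ b, le_abs_self (6 * RR τ b)]
      · have : rho τ act b (pp τ b) = 0 := by
          rw [rho, qq, if_pos h, sub_self, norm_zero, min_eq_right (le_max_right _ _)]
        simp only [u0, this, clip_zero]
    · exact u0_zero τ act (sgl_ne hba _) o

lemma Uf_restrict (a : G) {x : C G} (hx : ∀ b, a ≤ b → ev x b = 0) (δ : D G) :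
    Uf τ (fun b => ∃ _ : b < a, act b) x δ = Uf τ act x δ := by
  have e0 : u0 τ (fun b => ∃ _ : b < a, act b) x δ = u0 τ act x δ := by
    obtain ⟨b, o⟩ := δ
    rcases lt_or_ge b a with h | h
    · have : qq τ (fun b => ∃ _ : b < a, act b) b = qq τ act b := by
        unfold qq
        by_cases hb : act b
        · rw [if_pos hb, if_pos ⟨h, hb⟩]
        · rw [if_neg hb, if_neg fun hc => hb hc.2]
      rcases o with _ | ⟨c, j, k⟩
      · rfl
      · simp only [u0, rho, this]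
    · rw [u0_zero τ _ (hx b h), u0_zero τ _ (hx b h)]
  have e1 : ∀ c, ‖x - pp τ c‖ < RR τ c → c < a := by
    intro c hc
    by_contra h
    have := ev_sub_le x (pp τ c) c
    rw [hx c (not_lt.1 h), pp, sgl_self, zero_sub, abs_neg] at this
    unfold pp at hc
    linarith [RR_ge τ c, le_abs_self (6 * RR τ c)]
  by_cases h : ∃ c, act c ∧ δ.1 < c ∧ ‖x - pp τ c‖ < RR τ c
  · obtain ⟨c, c1, c2, c3⟩ := h
    rw [Uf_in τ act c1 c2 c3, Uf_in τ _ ⟨e1 c c3, c1⟩ c2 c3, cl, cl, e0]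
  · rw [Uf_out τ act h, Uf_out τ (fun b => ∃ _ : b < a, act b) fun ⟨c, c1, c2⟩ => h ⟨c, c1.2, c2⟩,
      e0]

lemma inj_aux (hact : ∀ a, act a → (∀ δ : D G, a ≤ δ.1 → ev (τ a) δ = 0) ∧
      ¬ ∃ x : C G, (∀ b, a ≤ b → ev x b = 0) ∧ ∀ δ, Uf τ act x δ = ev (τ a) δ)
    {x x' : C G} (e : ∀ δ, Uf τ act x δ = Uf τ act x' δ) {a : G} (a1 : act a)
    (a2 : ‖x' - pp τ a‖ < RR τ a) (h : ∀ c, act c → ‖x - pp τ c‖ < RR τ c → c ≤ a) : x = x' := by
  have o1 : ∀ δ : D G, a ≤ δ.1 → Uf τ act x δ = u0 τ act x δ := fun δ hδ =>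
    Uf_out τ act fun ⟨c, c1, c2, c3⟩ => absurd (lt_of_le_of_lt hδ c2) (not_lt.2 (h c c1 c3))
  have o2 : ∀ δ : D G, a ≤ δ.1 → Uf τ act x' δ = u0 τ act x' δ := fun δ hδ =>
    Uf_out τ act fun ⟨c, _, c2, c3⟩ => absurd (ball_uniq τ c3 a2 ▸ c2) (not_lt.2 hδ)
  rcases rho_cases τ act a x' with h1 | h1 | ⟨-, h1⟩
  · exact (row_inj τ act h1 fun o => by rw [← o1 (a, o) le_rfl, ← o2 (a, o) le_rfl, e]).symm
  · exfalso
    have := ev_sub_le x' (pp τ a) a
    rw [pp, sgl_self] at this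
    unfold pp at a2
    linarith [RR_ge τ a, (abs_le.1 this).1, (abs_le.1 h1).2]
  · have e' : ∀ δ, Uf τ act x δ = ev (τ a) δ := fun δ => by
      rw [e, h1, Uf_pp τ act a1 (hact a a1).1]
    by_contra hne
    refine (hact a a1).2 ⟨x, fun b hb => ?_, e'⟩
    have z : ∀ o, u0 τ act x (b, o) = 0 := fun o => by
      rw [← o1 (b, o) hb, e', (hact a a1).1 (b, o) hb]
    rcases rho_cases τ act b x with h2 | h2 | ⟨b1, h2⟩
    · have : x = 0 := row_inj τ act h2 fun o => by rw [z, u0_zero τ act (ev_zero b)]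
      rw [this, ev_zero]
    · rw [← u0_small τ act h2, z]
    · exfalso
      have hb' : b ≤ a := h b b1 (by rw [h2, sub_self, norm_zero]; linarith [RR_ge τ b])
      exact hne (by rw [h1, h2, le_antisymm hb hb'])

lemma UU_inj (hact : ∀ a, act a → (∀ δ : D G, a ≤ δ.1 → ev (τ a) δ = 0) ∧
      ¬ ∃ x : C G, (∀ b, a ≤ b → ev x b = 0) ∧ ∀ δ, Uf τ act x δ = ev (τ a) δ) :
    Function.Injective (UU τ act) := by
  intro x x' h
  have e : ∀ δ, Uf τ act x δ = Uf τ act x' δ := fun δ => congrArg (fun y => ev y δ) h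
  by_cases h1 : ∃ a, act a ∧ ‖x - pp τ a‖ < RR τ a <;>
    by_cases h2 : ∃ a, act a ∧ ‖x' - pp τ a‖ < RR τ a
  · obtain ⟨a, a1, a2⟩ := h1
    obtain ⟨b, b1, b2⟩ := h2
    rcases le_total a b with hab | hab
    · exact inj_aux τ act hact e b1 b2 fun c _ c2 => ball_uniq τ c2 a2 ▸ hab
    · exact (inj_aux τ act hact (fun δ => (e δ).symm) a1 a2
        fun c _ c2 => ball_uniq τ c2 b2 ▸ hab).symm
  · obtain ⟨a, a1, a2⟩ := h1
    exact (inj_aux τ act hact (fun δ => (e δ).symm) a1 a2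
      fun c c1 c2 => absurd ⟨c, c1, c2⟩ h2).symm
  · obtain ⟨b, b1, b2⟩ := h2
    exact inj_aux τ act hact e b1 b2 fun c c1 c2 => absurd ⟨c, c1, c2⟩ h1
  · have e0 : ∀ δ, u0 τ act x δ = u0 τ act x' δ := fun δ => by
      rw [← Uf_out τ act fun ⟨c, c1, _, c3⟩ => h1 ⟨c, c1, c3⟩,
        ← Uf_out τ act fun ⟨c, c1, _, c3⟩ => h2 ⟨c, c1, c3⟩, e]
    refine ev_ext fun b => ?_
    rcases rho_cases τ act b x with k1 | k1 | ⟨b1, k1⟩
    · rw [row_inj τ act k1 fun o => e0 (b, o)]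
    · rcases rho_cases τ act b x' with k2 | k2 | ⟨b2, k2⟩
      · rw [row_inj τ act k2 fun o => (e0 (b, o)).symm]
      · rw [← u0_small τ act k1, ← u0_small τ act k2, e0]
      · exact absurd ⟨b, b2, by rw [k2, sub_self, norm_zero]; linarith [RR_ge τ b]⟩ h2
    · exact absurd ⟨b, b1, by rw [k1, sub_self, norm_zero]; linarith [RR_ge τ b]⟩ h1

lemma UU_small {x : C G} (hx : ∀ b, ev x b ≤ 0) : ‖UU τ act x‖ ≤ 2 := by
  refine norm_le (by norm_num) fun δ => ?_
  simp only [UU, ev_mk]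
  rw [Uf_out τ act]
  · exact u0_le τ act x δ
  · rintro ⟨c, -, -, c3⟩
    have := ev_sub_le x (pp τ c) c
    rw [pp, sgl_self] at this
    unfold pp at c3
    linarith [RR_ge τ c, (abs_le.1 this).1, hx c]

end Pool.Agent.H.MP_f4a1d1_an
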